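import Pool.Agent.Y505.RM.Form

/-!
# Cubic forms in twelve variables without lines over finite extensions of the p-adic numbers

For every prime `p` one cubic form in 12 variables with integer coefficients contains no line over
any finite extension of `ℚ_p` of degree prime to three; and over every finite extension of `ℚ_p`
there is a cubic form in 12 variables without lines.
-/

set_option autoImplicit false

namespace Pool.Agent.Results.MP_35f46d_nt.AllPadicFields

open Pool.Agent.Y505.RM

/-- The cubic form `F` in 12 variables over the field `L` is nonzero and does not vanish identically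
on any two-dimensional subspace of `L¹²`: the hypersurface `F = 0` contains no line over `L`. -/
def NoLine {L : Type} [Field L] (F : MvPolynomial (Fin 12) L) : Prop :=
  F ≠ 0 ∧ ∀ W : Submodule L (Fin 12 → L), Module.finrank L W = 2 →
    ∃ v ∈ W, MvPolynomial.eval v F ≠ 0

lemma span_max (p : ℕ) [Fact p.Prime] : (Ideal.span {(p : ℤ_[p])}).IsMaximal := by
  rw [← PadicInt.maximalIdeal_eq_span_p]
  infer_instance

lemma card_quot (p : ℕ) [Fact p.Prime] : Nat.card (ℤ_[p] ⧸ Ideal.span {(p : ℤ_[p])}) = p := by
  rw [← PadicInt.maximalIdeal_eq_span_p]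
  have e : IsLocalRing.ResidueField ℤ_[p] ≃+* ZMod p := PadicInt.residueField
  have h : Nat.card (IsLocalRing.ResidueField ℤ_[p]) = Nat.card (ZMod p) :=
    Nat.card_congr e.toEquiv
  rw [Nat.card_zmod] at h
  exact h

/-- (1) For every prime `p` there is one cubic form `F` in 12 variables with integer coefficients
such that the hypersurface `F = 0` contains no line over `L`, for every finite extension `L` of
`ℚ_p` whose degree is not divisible by three.  (2) Over every finite extension `L` of `ℚ_p` there
is a cubic form in 12 variables without lines over `L`. -/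
theorem result :
    (∀ (p : ℕ) [Fact p.Prime], ∃ F : MvPolynomial (Fin 12) ℤ, F.IsHomogeneous 3 ∧
      ∀ (L : Type) [Field L] [Algebra ℚ_[p] L] [FiniteDimensional ℚ_[p] L],
        ¬ 3 ∣ Module.finrank ℚ_[p] L → NoLine (MvPolynomial.map (Int.castRingHom L) F)) ∧
    (∀ (p : ℕ) [Fact p.Prime] (L : Type) [Field L] [Algebra ℚ_[p] L] [FiniteDimensional ℚ_[p] L],
      ∃ F : MvPolynomial (Fin 12) L, F.IsHomogeneous 3 ∧ NoLine F) := by
  constructor
  · intro p _
    obtain ⟨a, b, c, hirr⟩ := exists_irred p
    refine ⟨form a b c (p : ℤ), form_homog _ _ _ _, ?_⟩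
    intro L _ _ _ hL
    exact uniform (R := ℤ_[p]) (K := ℚ_[p]) p (span_max p)
      (by exact_mod_cast (Fact.out : p.Prime).ne_zero) (card_quot p) hirr L hL
  · intro p _ L _ _ _
    exact anyField (R := ℤ_[p]) (K := ℚ_[p]) p (span_max p)
      (by exact_mod_cast (Fact.out : p.Prime).ne_zero) (card_quot p) L

end Pool.Agent.Results.MP_35f46d_nt.AllPadicFields
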